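import Mathlib

/-!
Quadrilinear forms: smooth divisors of type (1,1,1,1) in the fourfold product of the
projective line.  Definitions and statements of the parts.
-/

namespace Pool.Agent.W978.QM

/-- The value at `P` of the quadrilinear form with integer coefficients `a`
(`P i` is the vector of homogeneous coordinates of the `i`-th point). -/
def qf {R : Type*} [CommRing R] (a : (Fin 4 → Fin 2) → ℤ) (P : Fin 4 → Fin 2 → R) : R :=
  ∑ e : Fin 4 → Fin 2, (a e : R) * ∏ i, P i (e i)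

/-- The standard basis vectors of the plane. -/
def bv {R : Type*} [CommRing R] (j : Fin 2) : Fin 2 → R := Pi.single j 1

/-- The `2 × 2` matrix of the bilinear form which the quadrilinear form becomes in its `k`-th and
`l`-th argument, when the other two arguments are those of `P`. -/
def ma {R : Type*} [CommRing R] (a : (Fin 4 → Fin 2) → ℤ) (k l : Fin 4)
    (P : Fin 4 → Fin 2 → R) (u v : Fin 2) : R :=
  qf a (Function.update (Function.update P k (bv u)) l (bv v))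

/-- Its determinant: a form of bidegree `(2,2)` in the other two arguments. -/
def dt {R : Type*} [CommRing R] (a : (Fin 4 → Fin 2) → ℤ) (k l : Fin 4)
    (P : Fin 4 → Fin 2 → R) : R :=
  ma a k l P 0 0 * ma a k l P 1 1 - ma a k l P 0 1 * ma a k l P 1 0

/-- The discriminant of `dt a k l` as a quadratic form in its `j`-th argument (the Cayley
hyperdeterminant of the trilinear form in the arguments `j, k, l`): a quartic form in the
remaining argument. -/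
def disc {R : Type*} [CommRing R] (a : (Fin 4 → Fin 2) → ℤ) (j k l : Fin 4)
    (P : Fin 4 → Fin 2 → R) : R :=
  (dt a k l (Function.update P j (bv 0 + bv 1)) - dt a k l (Function.update P j (bv 0)) -
      dt a k l (Function.update P j (bv 1))) ^ 2 -
    4 * dt a k l (Function.update P j (bv 0)) * dt a k l (Function.update P j (bv 1))

/-- The divisor is smooth: at no point of it (over the complex numbers) do all partial
derivatives vanish. -/
def Smooth (a : (Fin 4 → Fin 2) → ℤ) : Prop :=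
  ∀ P : Fin 4 → Fin 2 → ℂ, (∀ i, P i ≠ 0) → qf a P = 0 →
    ∃ i, ∃ v, qf a (Function.update P i v) ≠ 0

/-- The open set. -/
def InU {R : Type*} [CommRing R] (a : (Fin 4 → Fin 2) → ℤ) (P : Fin 4 → Fin 2 → R) : Prop :=
  (∀ k l, k ≠ l → dt a k l P ≠ 0) ∧
    ∀ j k l, j ≠ k → j ≠ l → k ≠ l → disc a j k l P ≠ 0

/-- The value of the quadrilinear form with curried coefficients. -/
def cf {R : Type*} [CommRing R] (b : Fin 2 → Fin 2 → Fin 2 → Fin 2 → R)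
    (p q r s : Fin 2 → R) : R :=
  ∑ i, ∑ j, ∑ k, ∑ l, b i j k l * p i * q j * r k * s l

/-- Curried coefficients, arguments in the order given by the permutation. -/
def cu (a : (Fin 4 → Fin 2) → ℤ) (σ : Equiv.Perm (Fin 4)) (i j k l : Fin 2) : ℤ :=
  a (fun m => (![i, j, k, l] : Fin 4 → Fin 2) (σ.symm m))

/-- QM-SM1. -/
def S_SM1 : Prop := ∀ a : (Fin 4 → Fin 2) → ℤ, Smooth a → ∀ σ : Equiv.Perm (Fin 4),
  ∃ j k l j' k' l', cu a σ 0 j k l * cu a σ 1 j' k' l' - cu a σ 0 j' k' l' * cu a σ 1 j k l ≠ 0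

/-- QM-SM2. -/
def S_SM2 : Prop := ∀ a : (Fin 4 → Fin 2) → ℤ, Smooth a → ∀ j k l, j ≠ k → j ≠ l → k ≠ l →
  ∃ P : Fin 4 → Fin 2 → ℂ, disc a j k l P ≠ 0

/-- QM-SM3. -/
def S_SM3 : Prop := ∀ a : (Fin 4 → Fin 2) → ℤ,
  (∀ j k l, j ≠ k → j ≠ l → k ≠ l → ∃ P : Fin 4 → Fin 2 → ℂ, disc a j k l P ≠ 0) →
  ∃ P : Fin 4 → Fin 2 → ℂ, (∀ i, P i ≠ 0) ∧ qf a P = 0 ∧ InU a P

/-- QM-BR: passage to curried coefficients. -/
def S_BR : Prop := ∀ (R : Type) [CommRing R] (a : (Fin 4 → Fin 2) → ℤ) (σ : Equiv.Perm (Fin 4))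
  (P : Fin 4 → Fin 2 → R),
  qf a P = cf (fun i j k l => (cu a σ i j k l : R)) (P (σ 0)) (P (σ 1)) (P (σ 2)) (P (σ 3))

/-- The matrix of the bilinear form in the last two arguments. -/
def mm (b : Fin 2 → Fin 2 → Fin 2 → Fin 2 → ℤ) (p q : Fin 2 → ℤ) (k l : Fin 2) : ℤ :=
  ∑ i, ∑ j, b i j k l * p i * q j

/-- Primitive vectors in a box. -/
def Prim (v : Fin 2 → ℤ) : Prop := IsCoprime (v 0) (v 1)

/-- Sup norm. -/
def nm (v : Fin 2 → ℤ) : ℤ := max |v 0| |v 1|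

/-- Norm of a `2 × 2` matrix. -/
def mn (M : Fin 2 → Fin 2 → ℤ) : ℤ := max (max |M 0 0| |M 0 1|) (max |M 1 0| |M 1 1|)

/-- Content of a `2 × 2` matrix. -/
def ct (M : Fin 2 → Fin 2 → ℤ) : ℕ := Nat.gcd (Int.gcd (M 0 0) (M 0 1)) (Int.gcd (M 1 0) (M 1 1))

/-- Vectors in the box of size `X`. -/
noncomputable def bx (X : ℕ) : Finset (Fin 2 → ℤ) :=
  Fintype.piFinset fun _ => Finset.Icc (-(X : ℤ)) X

open Classical in
/-- QM-PAR: the parallelogram lemma. -/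
def S_PAR : Prop := ∀ (S : Finset (Fin 2 → ℤ)) (L₁ L₂ : Fin 2 → ℝ) (A B δ lam : ℝ),
  0 < A → 0 < B → 0 < δ → 0 < lam → |L₁ 0 * L₂ 1 - L₁ 1 * L₂ 0| = lam →
  (∀ v ∈ S, v ≠ 0 ∧ |L₁ 0 * v 0 + L₁ 1 * v 1| ≤ A ∧ |L₂ 0 * v 0 + L₂ 1 * v 1| ≤ B) →
  (∀ v ∈ S, ∀ w ∈ S, w ≠ v → w ≠ -v → δ ≤ |(v 0 * w 1 - v 1 * w 0 : ℝ)|) →
  (S.card : ℝ) ≤ 4 + 8 * A * B / (lam * δ)

open Classical in
/-- QM-BIL: pairs of primitive vectors on a bilinear form. -/
def S_BIL : Prop := ∀ (M : Fin 2 → Fin 2 → ℤ) (R S : ℕ), 1 ≤ R → 1 ≤ S →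
  M 0 0 * M 1 1 - M 0 1 * M 1 0 ≠ 0 →
  ((((bx R) ×ˢ (bx S)).filter fun x => Prim x.1 ∧ Prim x.2 ∧
    ∑ k, ∑ l, M k l * x.1 k * x.2 l = 0).card : ℝ) ≤
  (M 0 0 * M 1 1 - M 0 1 * M 1 0).natAbs.divisors.card *
    (2 * (4 + 8 * ct M * R * S / mn M))

open Classical in
/-- QM-LAT: the number of `q` with given content and bounded norm of the matrix. -/
def S_LAT : Prop := ∀ (b : Fin 2 → Fin 2 → Fin 2 → Fin 2 → ℤ) (j k l j' k' l' : Fin 2),
  b 0 j k l * b 1 j' k' l' - b 0 j' k' l' * b 1 j k l ≠ 0 →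
  ∃ K : ℝ, 0 < K ∧ ∀ (p : Fin 2 → ℤ), Prim p → ∀ (X m Y : ℕ), 1 ≤ X → 1 ≤ m → 1 ≤ Y →
  (((bx X).filter fun q => Prim q ∧ (∀ k l, (m : ℤ) ∣ mm b p q k l) ∧
    mn (mm b p q) ≤ Y).card : ℝ) ≤ 4 + K * X * Y / (m * nm p)

end Pool.Agent.W978.QM
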