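import Mathlib
import Pool.Agent.Helper112.Arith
import Pool.Agent.W978.QM.Stm

/-! Elementary bounds. -/

namespace Pool.Agent.W978.QM

open Finset

/-- The number of dyadic scales is small. -/
theorem log_bound (δ : ℝ) (hδ : 0 < δ) :
    ∃ C : ℝ, 0 < C ∧ ∀ Z : ℕ, 1 ≤ Z → ((Nat.log 2 Z : ℕ) : ℝ) + 1 ≤ C * (Z : ℝ) ^ δ := by
  have hl2 : 0 < Real.log 2 := Real.log_pos (by norm_num)
  refine ⟨1 / (δ * Real.log 2) + 1, by positivity, ?_⟩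
  intro Z hZ
  have hZ' : (1 : ℝ) ≤ Z := by exact_mod_cast hZ
  have hZ0 : (0 : ℝ) < Z := by linarith
  have h1 : ((Nat.log 2 Z : ℕ) : ℝ) * Real.log 2 ≤ Real.log Z := by
    have : ((2 : ℝ) ^ (Nat.log 2 Z)) ≤ Z := by
      exact_mod_cast Nat.pow_log_le_self 2 (by omega)
    calc ((Nat.log 2 Z : ℕ) : ℝ) * Real.log 2 = Real.log ((2 : ℝ) ^ (Nat.log 2 Z)) := by
          rw [Real.log_pow]
      _ ≤ Real.log Z := Real.log_le_log (by positivity) this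
  have h2 : δ * Real.log Z + 1 ≤ (Z : ℝ) ^ δ := by
    rw [Real.rpow_def_of_pos hZ0, mul_comm (Real.log (Z : ℝ)) δ]
    exact Real.add_one_le_exp _
  have h3 : (1 : ℝ) ≤ (Z : ℝ) ^ δ := Real.one_le_rpow hZ' hδ.le
  have h4 : ((Nat.log 2 Z : ℕ) : ℝ) ≤ 1 / (δ * Real.log 2) * (Z : ℝ) ^ δ := by
    rw [div_mul_eq_mul_div, le_div_iff₀ (by positivity)]
    have : ((Nat.log 2 Z : ℕ) : ℝ) * (δ * Real.log 2) ≤ δ * Real.log Z := by nlinarith
    linarith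
  nlinarith

/-- A common bound for divisor functions and numbers of dyadic scales. -/
theorem small_bound (c : ℕ) (hc : 1 ≤ c) (δ : ℝ) (hδ : 0 < δ) :
    ∃ C : ℝ, 0 < C ∧ ∀ Z : ℕ, 1 ≤ Z →
      (∀ n : ℕ, 1 ≤ n → n ≤ c * Z ^ 2 → ((n.divisors.card : ℕ) : ℝ) ≤ C * (Z : ℝ) ^ δ) ∧
      (∀ n : ℕ, 1 ≤ n → n ≤ c * Z ^ 2 → ((Nat.log 2 n : ℕ) : ℝ) + 1 ≤ C * (Z : ℝ) ^ δ) := by
  obtain ⟨C₁, hC₁, h₁⟩ := Pool.Agent.Helper112.divisor_bound (δ / 2) (by positivity)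
  obtain ⟨C₂, hC₂, h₂⟩ := log_bound (δ / 2) (by positivity)
  have hcp : (0 : ℝ) < (c : ℝ) ^ (δ / 2) := Real.rpow_pos_of_pos (by exact_mod_cast hc) _
  refine ⟨(C₁ + C₂) * (c : ℝ) ^ (δ / 2), by positivity, ?_⟩
  intro Z hZ
  have hZ' : (1 : ℝ) ≤ Z := by exact_mod_cast hZ
  have key : ∀ n : ℕ, 1 ≤ n → n ≤ c * Z ^ 2 →
      (n : ℝ) ^ (δ / 2) ≤ (c : ℝ) ^ (δ / 2) * (Z : ℝ) ^ δ := by
    intro n hn hnc
    have h0 : (n : ℝ) ≤ (c : ℝ) * (Z : ℝ) ^ 2 := by exact_mod_cast hnc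
    calc (n : ℝ) ^ (δ / 2) ≤ ((c : ℝ) * (Z : ℝ) ^ 2) ^ (δ / 2) :=
          Real.rpow_le_rpow (by positivity) h0 (by positivity)
      _ = (c : ℝ) ^ (δ / 2) * (Z : ℝ) ^ δ := by
          rw [Real.mul_rpow (by positivity) (by positivity), ← Real.rpow_natCast (Z : ℝ) 2,
            ← Real.rpow_mul (by positivity)]
          congr 2
          push_cast
          ring
  have hZp : (0 : ℝ) < (Z : ℝ) ^ δ := Real.rpow_pos_of_pos (by linarith) _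
  constructor
  · intro n hn hnc
    have h3 := key n hn hnc
    calc ((n.divisors.card : ℕ) : ℝ) ≤ C₁ * (n : ℝ) ^ (δ / 2) := h₁ n hn
      _ ≤ C₁ * ((c : ℝ) ^ (δ / 2) * (Z : ℝ) ^ δ) := mul_le_mul_of_nonneg_left h3 hC₁.le
      _ ≤ (C₁ + C₂) * (c : ℝ) ^ (δ / 2) * (Z : ℝ) ^ δ := by
          have : 0 ≤ C₂ * ((c : ℝ) ^ (δ / 2) * (Z : ℝ) ^ δ) := by positivity
          nlinarith
  · intro n hn hnc
    have h3 := key n hn hnc
    calc ((Nat.log 2 n : ℕ) : ℝ) + 1 ≤ C₂ * (n : ℝ) ^ (δ / 2) := h₂ n hn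
      _ ≤ C₂ * ((c : ℝ) ^ (δ / 2) * (Z : ℝ) ^ δ) := mul_le_mul_of_nonneg_left h3 hC₂.le
      _ ≤ (C₁ + C₂) * (c : ℝ) ^ (δ / 2) * (Z : ℝ) ^ δ := by
          have : 0 ≤ C₁ * ((c : ℝ) ^ (δ / 2) * (Z : ℝ) ^ δ) := by positivity
          nlinarith

theorem mem_bx {X : ℕ} {v : Fin 2 → ℤ} : v ∈ bx X ↔ nm v ≤ X := by
  unfold bx nm
  rw [Fintype.mem_piFinset, max_le_iff, abs_le, abs_le]
  simp only [Fin.forall_fin_two, mem_Icc]

theorem card_bx_le {X : ℕ} (hX : 1 ≤ X) : ((bx X).card : ℝ) ≤ 9 * (X : ℝ) ^ 2 := by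
  have hX' : (1 : ℝ) ≤ X := by exact_mod_cast hX
  have h : (bx X).card = (2 * X + 1) ^ 2 := by
    unfold bx
    rw [Fintype.card_piFinset]
    simp only [Int.card_Icc, Fin.prod_univ_two]
    have : ((X : ℤ) + 1 - -(X : ℤ)).toNat = 2 * X + 1 := by omega
    rw [this]; ring
  rw [h]
  push_cast
  nlinarith

theorem prim_ne_zero {v : Fin 2 → ℤ} (h : Prim v) : v ≠ 0 := by
  rintro rfl
  exact not_isCoprime_zero_zero h

theorem nm_pos {v : Fin 2 → ℤ} (h : Prim v) : 1 ≤ nm v := by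
  by_contra hc
  push Not at hc
  have h0 : |v 0| ≤ 0 := by
    have := le_max_left |v 0| |v 1|
    unfold nm at hc
    omega
  have h1 : |v 1| ≤ 0 := by
    have := le_max_right |v 0| |v 1|
    unfold nm at hc
    omega
  apply prim_ne_zero h
  funext i
  fin_cases i
  · exact abs_eq_zero.1 (le_antisymm h0 (abs_nonneg _))
  · exact abs_eq_zero.1 (le_antisymm h1 (abs_nonneg _))

/-- If an integer divides both coordinates of a multiple of a primitive vector, it divides the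
factor. -/
theorem prim_dvd {v : Fin 2 → ℤ} (h : Prim v) {g c : ℤ} (h0 : g ∣ c * v 0) (h1 : g ∣ c * v 1) :
    g ∣ c := by
  obtain ⟨x, y, hxy⟩ := h
  have : c = x * (c * v 0) + y * (c * v 1) := by linear_combination -c * hxy
  rw [this]
  exact dvd_add (Dvd.dvd.mul_left h0 x) (Dvd.dvd.mul_left h1 y)

end Pool.Agent.W978.QM
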