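import Mathlib
import Pool.Agent.W978.QM.Bas

/-! The count in a dyadic box. -/

namespace Pool.Agent.W978.QM

open Finset

/-- The `2 × 4` matrix of linear forms in the first argument, at `p`. -/
def wd (b : Fin 2 → Fin 2 → Fin 2 → Fin 2 → ℤ) (p : Fin 2 → ℤ) (j k l : Fin 2) : ℤ :=
  b 0 j k l * p 0 + b 1 j k l * p 1

theorem mm_eq (b : Fin 2 → Fin 2 → Fin 2 → Fin 2 → ℤ) (p q : Fin 2 → ℤ) (k l : Fin 2) :
    mm b p q k l = wd b p 0 k l * q 0 + wd b p 1 k l * q 1 := by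
  unfold mm wd
  simp only [Fin.sum_univ_two]
  ring

/-- The condition on the first point. -/
def Rk (b : Fin 2 → Fin 2 → Fin 2 → Fin 2 → ℤ) (p : Fin 2 → ℤ) : Prop :=
  ∃ k l k' l', wd b p 0 k l * wd b p 1 k' l' - wd b p 0 k' l' * wd b p 1 k l ≠ 0

/-- A bound for the coefficients. -/
def mxb (b : Fin 2 → Fin 2 → Fin 2 → Fin 2 → ℤ) : ℕ :=
  1 + ∑ i, ∑ j, ∑ k, ∑ l, (b i j k l).natAbs

theorem le_mxb (b : Fin 2 → Fin 2 → Fin 2 → Fin 2 → ℤ) (i j k l : Fin 2) :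
    |b i j k l| ≤ (mxb b : ℤ) := by
  have h1 : (b i j k l).natAbs ≤ ∑ l, (b i j k l).natAbs :=
    Finset.single_le_sum (f := fun l => (b i j k l).natAbs) (fun _ _ => Nat.zero_le _)
      (mem_univ l)
  have h2 : ∑ l, (b i j k l).natAbs ≤ ∑ k, ∑ l, (b i j k l).natAbs :=
    Finset.single_le_sum (f := fun k => ∑ l, (b i j k l).natAbs) (fun _ _ => Nat.zero_le _)
      (mem_univ k)
  have h3 : ∑ k, ∑ l, (b i j k l).natAbs ≤ ∑ j, ∑ k, ∑ l, (b i j k l).natAbs :=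
    Finset.single_le_sum (f := fun j => ∑ k, ∑ l, (b i j k l).natAbs) (fun _ _ => Nat.zero_le _)
      (mem_univ j)
  have h4 : ∑ j, ∑ k, ∑ l, (b i j k l).natAbs ≤ ∑ i, ∑ j, ∑ k, ∑ l, (b i j k l).natAbs :=
    Finset.single_le_sum (f := fun i => ∑ j, ∑ k, ∑ l, (b i j k l).natAbs)
      (fun _ _ => Nat.zero_le _) (mem_univ i)
  have h5 : (b i j k l).natAbs ≤ mxb b := by unfold mxb; omega
  rw [Int.abs_eq_natAbs]
  exact_mod_cast h5

theorem wd_le (b : Fin 2 → Fin 2 → Fin 2 → Fin 2 → ℤ) {p : Fin 2 → ℤ} {X : ℕ}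
    (hp : p ∈ bx X) (j k l : Fin 2) : |wd b p j k l| ≤ 2 * mxb b * X := by
  rw [mem_bx] at hp
  have h0 : |p 0| ≤ X := le_trans (le_max_left _ _) hp
  have h1 : |p 1| ≤ X := le_trans (le_max_right _ _) hp
  unfold wd
  calc |b 0 j k l * p 0 + b 1 j k l * p 1| ≤ |b 0 j k l * p 0| + |b 1 j k l * p 1| :=
        abs_add_le _ _
    _ = |b 0 j k l| * |p 0| + |b 1 j k l| * |p 1| := by rw [abs_mul, abs_mul]
    _ ≤ mxb b * X + mxb b * X := by
        gcongr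
        · exact le_mxb b 0 j k l
        · exact le_mxb b 1 j k l
    _ = 2 * mxb b * X := by ring

theorem mm_le (b : Fin 2 → Fin 2 → Fin 2 → Fin 2 → ℤ) {p q : Fin 2 → ℤ} {X Y : ℕ}
    (hp : p ∈ bx X) (hq : q ∈ bx Y) (k l : Fin 2) : |mm b p q k l| ≤ 4 * mxb b * X * Y := by
  have h2 := wd_le b hp 0 k l
  have h3 := wd_le b hp 1 k l
  rw [mem_bx] at hq
  have h0 : |q 0| ≤ Y := le_trans (le_max_left _ _) hq
  have h1 : |q 1| ≤ Y := le_trans (le_max_right _ _) hq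
  rw [mm_eq]
  calc |wd b p 0 k l * q 0 + wd b p 1 k l * q 1| ≤ |wd b p 0 k l * q 0| + |wd b p 1 k l * q 1| :=
        abs_add_le _ _
    _ = |wd b p 0 k l| * |q 0| + |wd b p 1 k l| * |q 1| := by rw [abs_mul, abs_mul]
    _ ≤ (2 * mxb b * X) * Y + (2 * mxb b * X) * Y := by gcongr
    _ = 4 * mxb b * X * Y := by ring

/-- The content divides the entries. -/
theorem ct_dvd (M : Fin 2 → Fin 2 → ℤ) (k l : Fin 2) : (ct M : ℤ) ∣ M k l := by
  have h0 : ct M ∣ Int.gcd (M 0 0) (M 0 1) := Nat.gcd_dvd_left _ _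
  have h1 : ct M ∣ Int.gcd (M 1 0) (M 1 1) := Nat.gcd_dvd_right _ _
  have h0' : (ct M : ℤ) ∣ (Int.gcd (M 0 0) (M 0 1) : ℤ) := by exact_mod_cast h0
  have h1' : (ct M : ℤ) ∣ (Int.gcd (M 1 0) (M 1 1) : ℤ) := by exact_mod_cast h1
  fin_cases k <;> fin_cases l
  · exact h0'.trans (Int.gcd_dvd_left _ _)
  · exact h0'.trans (Int.gcd_dvd_right _ _)
  · exact h1'.trans (Int.gcd_dvd_left _ _)
  · exact h1'.trans (Int.gcd_dvd_right _ _)

theorem le_mn (M : Fin 2 → Fin 2 → ℤ) (k l : Fin 2) : |M k l| ≤ mn M := by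
  unfold mn
  fin_cases k <;> fin_cases l
  · exact le_trans (le_max_left _ _) (le_max_left _ _)
  · exact le_trans (le_max_right _ _) (le_max_left _ _)
  · exact le_trans (le_max_left _ _) (le_max_right _ _)
  · exact le_trans (le_max_right _ _) (le_max_right _ _)

theorem mn_le {M : Fin 2 → Fin 2 → ℤ} {Z : ℤ} (h : ∀ k l, |M k l| ≤ Z) : mn M ≤ Z :=
  max_le (max_le (h 0 0) (h 0 1)) (max_le (h 1 0) (h 1 1))

/-- A non-degenerate matrix has positive content, bounded by its norm. -/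
theorem ct_le_mn {M : Fin 2 → Fin 2 → ℤ} (h : M 0 0 * M 1 1 - M 0 1 * M 1 0 ≠ 0) :
    1 ≤ ct M ∧ (ct M : ℤ) ≤ mn M := by
  have h1 : ∃ k l, M k l ≠ 0 := by
    by_contra hc
    push Not at hc
    apply h
    rw [hc 0 0, hc 0 1]; ring
  obtain ⟨k, l, hkl⟩ := h1
  have h2 : (ct M : ℤ) ≠ 0 := by
    intro h0
    have := ct_dvd M k l
    rw [h0, zero_dvd_iff] at this
    exact hkl this
  have h3 : (ct M : ℤ) ≤ |M k l| := Int.le_of_dvd (abs_pos.2 hkl) ((dvd_abs _ _).2 (ct_dvd M k l))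
  refine ⟨?_, h3.trans (le_mn M k l)⟩
  have : ct M ≠ 0 := by exact_mod_cast h2
  omega

open Classical in
/-- The sum over the second point. -/
theorem sum_q (b : Fin 2 → Fin 2 → Fin 2 → Fin 2 → ℤ) (K : ℝ) (hK : 0 < K)
    (p : Fin 2 → ℤ) (hp : Prim p) (hR : Rk b p) (X : ℕ) (hX : 1 ≤ X)
    (hlat : ∀ (X m Y : ℕ), 1 ≤ X → 1 ≤ m → 1 ≤ Y →
      (((bx X).filter fun q => Prim q ∧ (∀ k l, (m : ℤ) ∣ mm b p q k l) ∧
        mn (mm b p q) ≤ Y).card : ℝ) ≤ 4 + K * X * Y / (m * nm p))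
    (E : ℝ) (hE : 1 ≤ E) (Z : ℕ)
    (hZ : ∀ q ∈ bx X, mn (mm b p q) ≤ Z)
    (hE1 : ((Nat.log 2 Z : ℕ) : ℝ) + 1 ≤ E)
    (hE2 : ∀ k l k' l', wd b p 0 k l * wd b p 1 k' l' - wd b p 0 k' l' * wd b p 1 k l ≠ 0 →
      (((wd b p 0 k l * wd b p 1 k' l' - wd b p 0 k' l' * wd b p 1 k l).natAbs.divisors.card : ℕ) :
        ℝ) ≤ E) :
    ∑ q ∈ (bx X).filter (fun q => Prim q ∧ mm b p q 0 0 * mm b p q 1 1 -
      mm b p q 0 1 * mm b p q 1 0 ≠ 0), ((ct (mm b p q) : ℝ) / (mn (mm b p q) : ℝ)) ≤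
    E ^ 2 * (4 + 2 * K * X / nm p) := by
  obtain ⟨k, l, k', l', hn⟩ := hR
  set n := (wd b p 0 k l * wd b p 1 k' l' - wd b p 0 k' l' * wd b p 1 k l).natAbs with hndef
  have hn0 : n ≠ 0 := Int.natAbs_ne_zero.2 hn
  have hnm : (1 : ℝ) ≤ (nm p : ℝ) := by exact_mod_cast nm_pos hp
  set Q := (bx X).filter (fun q => Prim q ∧ mm b p q 0 0 * mm b p q 1 1 -
      mm b p q 0 1 * mm b p q 1 0 ≠ 0) with hQ
  -- the content divides the minor
  have hct : ∀ q ∈ Q, ct (mm b p q) ∈ n.divisors := by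
    intro q hq
    rw [hQ, mem_filter] at hq
    obtain ⟨hq0, hq1, hq2⟩ := hq
    rw [Nat.mem_divisors]
    refine ⟨?_, hn0⟩
    have h1 := ct_dvd (mm b p q) k l
    have h2 := ct_dvd (mm b p q) k' l'
    rw [mm_eq] at h1 h2
    have h3 : (ct (mm b p q) : ℤ) ∣
        (wd b p 0 k l * wd b p 1 k' l' - wd b p 0 k' l' * wd b p 1 k l) := by
      apply prim_dvd hq1
      · have h4 := dvd_sub (Dvd.dvd.mul_left h1 (wd b p 1 k' l')) (Dvd.dvd.mul_left h2 (wd b p 1 k l))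
        have h5 : (wd b p 0 k l * wd b p 1 k' l' - wd b p 0 k' l' * wd b p 1 k l) * q 0 =
          wd b p 1 k' l' * (wd b p 0 k l * q 0 + wd b p 1 k l * q 1) -
          wd b p 1 k l * (wd b p 0 k' l' * q 0 + wd b p 1 k' l' * q 1) := by ring
        rw [h5]
        exact h4
      · have h4 := dvd_sub (Dvd.dvd.mul_left h2 (wd b p 0 k l)) (Dvd.dvd.mul_left h1 (wd b p 0 k' l'))
        have h5 : (wd b p 0 k l * wd b p 1 k' l' - wd b p 0 k' l' * wd b p 1 k l) * q 1 =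
          wd b p 0 k l * (wd b p 0 k' l' * q 0 + wd b p 1 k' l' * q 1) -
          wd b p 0 k' l' * (wd b p 0 k l * q 0 + wd b p 1 k l * q 1) := by ring
        rw [h5]
        exact h4
    rw [hndef]
    exact Int.natCast_dvd.1 h3
  have hlog : ∀ q ∈ Q, Nat.log 2 (mn (mm b p q)).toNat ∈ range (Nat.log 2 Z + 1) := by
    intro q hq
    rw [hQ, mem_filter] at hq
    rw [mem_range]
    have h1 : (mn (mm b p q)).toNat ≤ Z := by
      have := hZ q hq.1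
      omega
    have := Nat.log_mono_right (b := 2) h1
    omega
  -- fibrewise
  have hmap : ∀ q ∈ Q, (ct (mm b p q), Nat.log 2 (mn (mm b p q)).toNat) ∈
      n.divisors ×ˢ range (Nat.log 2 Z + 1) := fun q hq =>
    mem_product.2 ⟨hct q hq, hlog q hq⟩
  rw [← Finset.sum_fiberwise_of_maps_to hmap]
  have hfib : ∀ y ∈ n.divisors ×ˢ range (Nat.log 2 Z + 1),
      ∑ q ∈ Q with (ct (mm b p q), Nat.log 2 (mn (mm b p q)).toNat) = y,
        ((ct (mm b p q) : ℝ) / (mn (mm b p q) : ℝ)) ≤ 4 + 2 * K * X / nm p := by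
    rintro ⟨m, j⟩ hy
    have hm1 : 1 ≤ m := Nat.pos_of_mem_divisors (mem_product.1 hy).1
    have hm1' : (1 : ℝ) ≤ m := by exact_mod_cast hm1
    have h2j : (1 : ℝ) ≤ (2 : ℝ) ^ j := one_le_pow₀ (by norm_num)
    -- each term
    have hterm : ∀ q ∈ Q.filter (fun q => (ct (mm b p q), Nat.log 2 (mn (mm b p q)).toNat) =
        (m, j)), ((ct (mm b p q) : ℝ) / (mn (mm b p q) : ℝ)) ≤ min (1 : ℝ) ((m : ℝ) / 2 ^ j) := by
      intro q hq
      rw [mem_filter, hQ, mem_filter] at hq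
      obtain ⟨⟨hq0, hq1, hq2⟩, hq3⟩ := hq
      rw [Prod.mk.injEq] at hq3
      obtain ⟨hc1, hc2⟩ := ct_le_mn hq2
      have hmn : (1 : ℤ) ≤ mn (mm b p q) := le_trans (by exact_mod_cast hc1) hc2
      have hmn' : (1 : ℝ) ≤ (mn (mm b p q) : ℝ) := by exact_mod_cast hmn
      have hc2' : ((ct (mm b p q) : ℕ) : ℝ) ≤ (mn (mm b p q) : ℝ) := by exact_mod_cast hc2
      have hpow : ((2 : ℝ) ^ j) ≤ (mn (mm b p q) : ℝ) := by
        have h1 : 2 ^ j ≤ (mn (mm b p q)).toNat := by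
          rw [← hq3.2]
          exact Nat.pow_log_le_self 2 (by omega)
        have h2 : ((2 ^ j : ℕ) : ℤ) ≤ mn (mm b p q) := by omega
        exact_mod_cast h2
      rw [le_min_iff]
      constructor
      · rw [div_le_one (by linarith)]
        exact hc2'
      · rw [hq3.1]
        gcongr
    have hcard : ((Q.filter (fun q => (ct (mm b p q), Nat.log 2 (mn (mm b p q)).toNat) =
        (m, j))).card : ℝ) ≤ 4 + K * X * ((2 ^ (j + 1) : ℕ) : ℝ) / (m * nm p) := by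
      refine le_trans ?_ (hlat X m (2 ^ (j + 1)) hX hm1 Nat.one_le_two_pow)
      have : (Q.filter (fun q => (ct (mm b p q), Nat.log 2 (mn (mm b p q)).toNat) =
        (m, j))) ⊆ (bx X).filter fun q => Prim q ∧ (∀ k l, (m : ℤ) ∣ mm b p q k l) ∧
        mn (mm b p q) ≤ ((2 ^ (j + 1) : ℕ) : ℤ) := by
        intro q hq
        rw [mem_filter, hQ, mem_filter] at hq
        obtain ⟨⟨hq0, hq1, hq2⟩, hq3⟩ := hq
        rw [Prod.mk.injEq] at hq3
        rw [mem_filter]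
        refine ⟨hq0, hq1, ?_, ?_⟩
        · intro k l
          rw [← hq3.1]
          exact ct_dvd _ k l
        · have h1 : (mn (mm b p q)).toNat < 2 ^ (j + 1) := by
            rw [← hq3.2]
            exact Nat.lt_pow_succ_log_self (by norm_num) _
          omega
      exact_mod_cast Finset.card_le_card this
    calc ∑ q ∈ Q with (ct (mm b p q), Nat.log 2 (mn (mm b p q)).toNat) = (m, j),
          ((ct (mm b p q) : ℝ) / (mn (mm b p q) : ℝ))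
        ≤ ((Q.filter (fun q => (ct (mm b p q), Nat.log 2 (mn (mm b p q)).toNat) =
          (m, j))).card : ℝ) * min (1 : ℝ) ((m : ℝ) / 2 ^ j) := by
          have := Finset.sum_le_card_nsmul _ _ _ hterm
          rwa [nsmul_eq_mul] at this
      _ ≤ (4 + K * X * ((2 ^ (j + 1) : ℕ) : ℝ) / (m * nm p)) * min (1 : ℝ) ((m : ℝ) / 2 ^ j) := by
          gcongr
      _ = 4 * min (1 : ℝ) ((m : ℝ) / 2 ^ j) +
          K * X * ((2 ^ (j + 1) : ℕ) : ℝ) / (m * nm p) * min (1 : ℝ) ((m : ℝ) / 2 ^ j) := by ring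
      _ ≤ 4 * 1 + K * X * ((2 ^ (j + 1) : ℕ) : ℝ) / (m * nm p) * (m / 2 ^ j) := by
          gcongr
          · exact min_le_left _ _
          · exact min_le_right _ _
      _ = 4 + 2 * K * X / nm p := by
          have h5 : (nm p : ℝ) ≠ 0 := by linarith
          have h6 : (m : ℝ) ≠ 0 := by linarith
          push_cast
          field_simp
          ring
  calc ∑ y ∈ n.divisors ×ˢ range (Nat.log 2 Z + 1),
        ∑ q ∈ Q with (ct (mm b p q), Nat.log 2 (mn (mm b p q)).toNat) = y,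
          ((ct (mm b p q) : ℝ) / (mn (mm b p q) : ℝ))
      ≤ ((n.divisors ×ˢ range (Nat.log 2 Z + 1)).card : ℝ) * (4 + 2 * K * X / nm p) := by
        have := Finset.sum_le_card_nsmul _ _ _ hfib
        rwa [nsmul_eq_mul] at this
    _ ≤ (E * E) * (4 + 2 * K * X / nm p) := by
        gcongr
        rw [card_product, card_range]
        push_cast
        exact mul_le_mul (hE2 k l k' l' hn) hE1 (by positivity) (by linarith)
    _ = E ^ 2 * (4 + 2 * K * X / nm p) := by ring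

/-- The determinant of the matrix. -/
def dm (b : Fin 2 → Fin 2 → Fin 2 → Fin 2 → ℤ) (p q : Fin 2 → ℤ) : ℤ :=
  mm b p q 0 0 * mm b p q 1 1 - mm b p q 0 1 * mm b p q 1 0

open Classical in
/-- The set to be counted in a dyadic box. -/
noncomputable def cs (b : Fin 2 → Fin 2 → Fin 2 → Fin 2 → ℤ) (X₁ X₂ X₃ X₄ : ℕ) :
    Finset ((Fin 2 → ℤ) × (Fin 2 → ℤ) × ((Fin 2 → ℤ) × (Fin 2 → ℤ))) :=
  ((bx X₁) ×ˢ (bx X₂) ×ˢ ((bx X₃) ×ˢ (bx X₄))).filter fun x =>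
    (Prim x.1 ∧ Rk b x.1 ∧ (X₁ : ℤ) ≤ 2 * nm x.1) ∧ (Prim x.2.1 ∧ dm b x.1 x.2.1 ≠ 0) ∧
    (Prim x.2.2.1 ∧ Prim x.2.2.2 ∧ ∑ k, ∑ l, mm b x.1 x.2.1 k l * x.2.2.1 k * x.2.2.2 l = 0)

open Classical in
/-- The count in a dyadic box. -/
theorem core (hB : S_BIL) (hL : S_LAT) (b : Fin 2 → Fin 2 → Fin 2 → Fin 2 → ℤ)
    (hb : ∃ j k l j' k' l', b 0 j k l * b 1 j' k' l' - b 0 j' k' l' * b 1 j k l ≠ 0)
    (ε : ℝ) (hε : 0 < ε) : ∃ C : ℝ, 0 < C ∧ ∀ X₁ X₂ X₃ X₄ : ℕ, 1 ≤ X₁ → X₁ ≤ X₂ → 1 ≤ X₃ →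
      1 ≤ X₄ → X₁ * X₂ ≤ X₃ * X₄ →
      ((cs b X₁ X₂ X₃ X₄).card : ℝ) ≤ C * ((X₁ * X₂ * X₃ * X₄ : ℕ) : ℝ) ^ (1 + ε) := by
  obtain ⟨j, k, l, j', k', l', hk⟩ := hb
  obtain ⟨K, hK, hlat⟩ := hL b j k l j' k' l' hk
  have hc1 : 1 ≤ 32 * mxb b ^ 2 := by
    have : 1 ≤ mxb b := by unfold mxb; omega
    nlinarith
  obtain ⟨C, hC, hsm⟩ := small_bound (32 * mxb b ^ 2) hc1 (ε / 3) (by positivity)
  refine ⟨2000 * (1 + K) * (C + 1) ^ 3, by positivity, ?_⟩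
  intro X₁ X₂ X₃ X₄ h1 h12 h3 h4 h1234
  have h2 : 1 ≤ X₂ := h1.trans h12
  set Pi4 : ℕ := X₁ * X₂ * X₃ * X₄ with hPi4
  have hPi41 : 1 ≤ Pi4 := by
    rw [hPi4]
    exact Nat.one_le_iff_ne_zero.2 (by positivity)
  obtain ⟨hdiv, hlog⟩ := hsm (X₁ * X₂) (Nat.one_le_iff_ne_zero.2 (by positivity))
  set E : ℝ := (C + 1) * (Pi4 : ℝ) ^ (ε / 3) with hE
  have hPi41' : (1 : ℝ) ≤ Pi4 := by exact_mod_cast hPi41
  have hPi4p : (1 : ℝ) ≤ (Pi4 : ℝ) ^ (ε / 3) := Real.one_le_rpow hPi41' (by positivity)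
  have hE1 : 1 ≤ E := by rw [hE]; nlinarith
  have h12Pi4 : X₁ * X₂ ≤ Pi4 := by
    rw [hPi4, mul_assoc]
    exact Nat.le_mul_of_pos_right _ (by positivity)
  have hCE : C * ((X₁ * X₂ : ℕ) : ℝ) ^ (ε / 3) ≤ E := by
    rw [hE]
    have : ((X₁ * X₂ : ℕ) : ℝ) ^ (ε / 3) ≤ (Pi4 : ℝ) ^ (ε / 3) :=
      Real.rpow_le_rpow (by positivity) (by exact_mod_cast h12Pi4) (by positivity)
    nlinarith
  have x1 : (1 : ℝ) ≤ X₁ := by exact_mod_cast h1
  have x2 : (1 : ℝ) ≤ X₂ := by exact_mod_cast h2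
  have x3 : (1 : ℝ) ≤ X₃ := by exact_mod_cast h3
  have x4 : (1 : ℝ) ≤ X₄ := by exact_mod_cast h4
  have x12 : (X₁ : ℝ) ≤ X₂ := by exact_mod_cast h12
  have x1234 : (X₁ * X₂ : ℝ) ≤ X₃ * X₄ := by exact_mod_cast h1234
  set A : ℕ := mxb b with hA
  -- divisor bound for the determinant
  have hdet : ∀ p ∈ bx X₁, ∀ q ∈ bx X₂, dm b p q ≠ 0 →
      (((dm b p q).natAbs.divisors.card : ℕ) : ℝ) ≤ E := by
    intro p hp q hq hd
    refine le_trans (hdiv _ (Nat.one_le_iff_ne_zero.2 (Int.natAbs_ne_zero.2 hd)) ?_) hCE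
    have hb00 := mm_le b hp hq 0 0
    have hb01 := mm_le b hp hq 0 1
    have hb10 := mm_le b hp hq 1 0
    have hb11 := mm_le b hp hq 1 1
    have : |dm b p q| ≤ 32 * A ^ 2 * (X₁ * X₂) ^ 2 := by
      unfold dm
      calc |mm b p q 0 0 * mm b p q 1 1 - mm b p q 0 1 * mm b p q 1 0|
          ≤ |mm b p q 0 0 * mm b p q 1 1| + |mm b p q 0 1 * mm b p q 1 0| := abs_sub _ _
        _ = |mm b p q 0 0| * |mm b p q 1 1| + |mm b p q 0 1| * |mm b p q 1 0| := by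
            rw [abs_mul, abs_mul]
        _ ≤ (4 * A * X₁ * X₂) * (4 * A * X₁ * X₂) + (4 * A * X₁ * X₂) * (4 * A * X₁ * X₂) := by
            gcongr
        _ = 32 * A ^ 2 * (X₁ * X₂) ^ 2 := by ring
    rw [Int.abs_eq_natAbs] at this
    exact_mod_cast this
  -- divisor bound for the minors
  have hmin : ∀ p ∈ bx X₁, ∀ k l k' l',
      wd b p 0 k l * wd b p 1 k' l' - wd b p 0 k' l' * wd b p 1 k l ≠ 0 →
      (((wd b p 0 k l * wd b p 1 k' l' - wd b p 0 k' l' * wd b p 1 k l).natAbs.divisors.card :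
        ℕ) : ℝ) ≤ E := by
    intro p hp k l k' l' hd
    refine le_trans (hdiv _ (Nat.one_le_iff_ne_zero.2 (Int.natAbs_ne_zero.2 hd)) ?_) hCE
    have hb00 := wd_le b hp 0 k l
    have hb01 := wd_le b hp 1 k' l'
    have hb10 := wd_le b hp 0 k' l'
    have hb11 := wd_le b hp 1 k l
    have hX2 : (1 : ℤ) ≤ X₂ := by exact_mod_cast h2
    have : |wd b p 0 k l * wd b p 1 k' l' - wd b p 0 k' l' * wd b p 1 k l| ≤
        32 * A ^ 2 * (X₁ * X₂) ^ 2 := by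
      calc |wd b p 0 k l * wd b p 1 k' l' - wd b p 0 k' l' * wd b p 1 k l|
          ≤ |wd b p 0 k l * wd b p 1 k' l'| + |wd b p 0 k' l' * wd b p 1 k l| := abs_sub _ _
        _ = |wd b p 0 k l| * |wd b p 1 k' l'| + |wd b p 0 k' l'| * |wd b p 1 k l| := by
            rw [abs_mul, abs_mul]
        _ ≤ (2 * A * X₁) * (2 * A * X₁) + (2 * A * X₁) * (2 * A * X₁) := by
            gcongr
        _ = 8 * A ^ 2 * (X₁ * 1) ^ 2 := by ring
        _ ≤ 32 * A ^ 2 * (X₁ * X₂) ^ 2 := by gcongr; norm_num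
    rw [Int.abs_eq_natAbs] at this
    exact_mod_cast this
  -- number of scales
  have hlogE : ((Nat.log 2 (4 * A * X₁ * X₂) : ℕ) : ℝ) + 1 ≤ E := by
    refine le_trans (hlog _ ?_ ?_) hCE
    · have : 1 ≤ A := by rw [hA]; unfold mxb; omega
      exact Nat.one_le_iff_ne_zero.2 (by positivity)
    · have hA1 : 1 ≤ A := by rw [hA]; unfold mxb; omega
      have e1 : 1 ≤ A * (X₁ * X₂) := Nat.one_le_iff_ne_zero.2 (by positivity)
      have : 4 * A * X₁ * X₂ = 4 * (A * (X₁ * X₂)) := by ring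
      rw [this]
      have e2 : 32 * A ^ 2 * (X₁ * X₂) ^ 2 = 32 * (A * (X₁ * X₂)) ^ 2 := by ring
      rw [e2]
      nlinarith
  -- the set as a double sum
  set P₁ := (bx X₁).filter (fun p => Prim p ∧ Rk b p ∧ (X₁ : ℤ) ≤ 2 * nm p) with hP₁
  have hcount : ((cs b X₁ X₂ X₃ X₄).card : ℝ) ≤
      ∑ p ∈ P₁, ∑ q ∈ (bx X₂).filter (fun q => Prim q ∧ mm b p q 0 0 * mm b p q 1 1 -
      mm b p q 0 1 * mm b p q 1 0 ≠ 0),
        E * (2 * (4 + 8 * ct (mm b p q) * X₃ * X₄ / mn (mm b p q))) := by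
    have hsum : ((cs b X₁ X₂ X₃ X₄).card : ℝ) =
        ∑ p ∈ P₁, ∑ q ∈ (bx X₂).filter (fun q => Prim q ∧ mm b p q 0 0 * mm b p q 1 1 -
          mm b p q 0 1 * mm b p q 1 0 ≠ 0),
          ((((bx X₃) ×ˢ (bx X₄)).filter fun x => Prim x.1 ∧ Prim x.2 ∧
            ∑ k, ∑ l, mm b p q k l * x.1 k * x.2 l = 0).card : ℝ) := by
      unfold cs
      rw [Finset.card_filter, Finset.sum_product, hP₁, Finset.sum_filter]
      push_cast
      refine Finset.sum_congr rfl fun p _ => ?_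
      rw [Finset.sum_product]
      by_cases hp : Prim p ∧ Rk b p ∧ (X₁ : ℤ) ≤ 2 * nm p
      · rw [if_pos hp, Finset.sum_filter]
        refine Finset.sum_congr rfl fun q _ => ?_
        by_cases hq : Prim q ∧ mm b p q 0 0 * mm b p q 1 1 - mm b p q 0 1 * mm b p q 1 0 ≠ 0
        · rw [if_pos hq, Finset.card_filter]
          push_cast
          refine Finset.sum_congr rfl fun x _ => ?_
          have hq' : Prim q ∧ dm b p q ≠ 0 := hq
          simp only [hp, hq', true_and, and_true, ne_eq, not_false_eq_true]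
        · rw [if_neg hq]
          refine Finset.sum_eq_zero fun x _ => ?_
          rw [if_neg]
          rintro ⟨_, hq', _⟩
          exact hq hq'
      · rw [if_neg hp]
        refine Finset.sum_eq_zero fun q _ => Finset.sum_eq_zero fun x _ => ?_
        rw [if_neg]
        rintro ⟨hp', _⟩
        exact hp hp'
    rw [hsum]
    refine Finset.sum_le_sum fun p hp => Finset.sum_le_sum fun q hq => ?_
    rw [hP₁, mem_filter] at hp
    rw [mem_filter] at hq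
    refine le_trans (hB (mm b p q) X₃ X₄ h3 h4 hq.2.2) ?_
    have hmn : (0 : ℝ) ≤ (mn (mm b p q) : ℝ) := by
      have := (ct_le_mn hq.2.2)
      have h0 : (0 : ℤ) ≤ mn (mm b p q) := by omega
      exact_mod_cast h0
    gcongr
    exact hdet p hp.1 q hq.1 hq.2.2
  refine hcount.trans ?_
  -- inner sums
  have hinner : ∀ p ∈ P₁, ∑ q ∈ (bx X₂).filter (fun q => Prim q ∧ mm b p q 0 0 * mm b p q 1 1 -
      mm b p q 0 1 * mm b p q 1 0 ≠ 0),
        E * (2 * (4 + 8 * ct (mm b p q) * X₃ * X₄ / mn (mm b p q))) ≤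
      72 * E * (X₂ : ℝ) ^ 2 + 16 * E ^ 3 * (X₃ * X₄) * (4 + 4 * K * X₂ / X₁) := by
    intro p hp
    rw [hP₁, mem_filter] at hp
    obtain ⟨hp0, hp1, hp2, hp3⟩ := hp
    have hs := sum_q b K hK p hp1 hp2 X₂ h2 (fun X m Y a b c => hlat p hp1 X m Y a b c) E hE1
      (4 * A * X₁ * X₂) (fun q hq => by
        have := mn_le (fun k l => mm_le b hp0 hq k l)
        push_cast
        exact this) hlogE (hmin p hp0)
    set Q := (bx X₂).filter (fun q => Prim q ∧ mm b p q 0 0 * mm b p q 1 1 -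
      mm b p q 0 1 * mm b p q 1 0 ≠ 0) with hQ
    have hcardQ : (Q.card : ℝ) ≤ 9 * (X₂ : ℝ) ^ 2 :=
      le_trans (by exact_mod_cast Finset.card_le_card (Finset.filter_subset _ _)) (card_bx_le h2)
    have hnm : (X₁ : ℝ) ≤ 2 * (nm p : ℝ) := by exact_mod_cast hp3
    have hnm1 : (1 : ℝ) ≤ (nm p : ℝ) := by exact_mod_cast nm_pos hp1
    have hX1 : 2 * K * X₂ / (nm p : ℝ) ≤ 4 * K * X₂ / X₁ := by
      rw [div_le_div_iff₀ (by linarith) (by linarith)]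
      have : 0 ≤ K * X₂ := by positivity
      nlinarith
    calc ∑ q ∈ Q, E * (2 * (4 + 8 * ct (mm b p q) * X₃ * X₄ / mn (mm b p q)))
        = 8 * E * Q.card + 16 * E * (X₃ * X₄) *
          ∑ q ∈ Q, ((ct (mm b p q) : ℝ) / (mn (mm b p q) : ℝ)) := by
          rw [Finset.mul_sum, ← nsmul_eq_mul', ← Finset.sum_const, ← Finset.sum_add_distrib]
          refine Finset.sum_congr rfl fun q _ => ?_
          ring
      _ ≤ 8 * E * (9 * (X₂ : ℝ) ^ 2) + 16 * E * (X₃ * X₄) *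
          (E ^ 2 * (4 + 4 * K * X₂ / X₁)) := by
          gcongr
          refine hs.trans ?_
          gcongr
      _ = 72 * E * (X₂ : ℝ) ^ 2 + 16 * E ^ 3 * (X₃ * X₄) * (4 + 4 * K * X₂ / X₁) := by ring
  have hcardP : (P₁.card : ℝ) ≤ 9 * (X₁ : ℝ) ^ 2 :=
    le_trans (by exact_mod_cast Finset.card_le_card (Finset.filter_subset _ _)) (card_bx_le h1)
  have hfin := Finset.sum_le_card_nsmul _ _ _ hinner
  rw [nsmul_eq_mul] at hfin
  refine hfin.trans ?_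
  have hE3 : E ≤ E ^ 3 := by nlinarith [sq_nonneg (E - 1), sq_nonneg E]
  have hE3' : 1 ≤ E ^ 3 := hE1.trans hE3
  have hPi4r : (Pi4 : ℝ) = X₁ * X₂ * X₃ * X₄ := by rw [hPi4]; push_cast; ring
  have hA1 : (X₁ : ℝ) ^ 2 * (X₂ : ℝ) ^ 2 ≤ Pi4 := by
    rw [hPi4r]
    have := mul_le_mul_of_nonneg_left x1234 (by positivity : (0 : ℝ) ≤ X₁ * X₂)
    nlinarith
  have hA2 : (X₁ : ℝ) ^ 2 * (X₃ * X₄) ≤ Pi4 := by
    rw [hPi4r]
    have h5 : (X₁ : ℝ) ^ 2 ≤ X₁ * X₂ := by nlinarith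
    have := mul_le_mul_of_nonneg_right h5 (by positivity : (0 : ℝ) ≤ X₃ * X₄)
    nlinarith
  have hA3 : (X₁ : ℝ) ^ 2 * (X₃ * X₄) * (X₂ / X₁) = Pi4 := by
    rw [hPi4r]
    have : (X₁ : ℝ) ≠ 0 := by linarith
    field_simp
  have hmain : (P₁.card : ℝ) * (72 * E * (X₂ : ℝ) ^ 2 +
      16 * E ^ 3 * (X₃ * X₄) * (4 + 4 * K * X₂ / X₁)) ≤ 2000 * (1 + K) * (E ^ 3 * Pi4) := by
    calc (P₁.card : ℝ) * (72 * E * (X₂ : ℝ) ^ 2 +
        16 * E ^ 3 * (X₃ * X₄) * (4 + 4 * K * X₂ / X₁))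
        ≤ (9 * (X₁ : ℝ) ^ 2) * (72 * E ^ 3 * (X₂ : ℝ) ^ 2 +
        16 * E ^ 3 * (X₃ * X₄) * (4 + 4 * K * X₂ / X₁)) := by gcongr
      _ = E ^ 3 * (648 * ((X₁ : ℝ) ^ 2 * (X₂ : ℝ) ^ 2) + 576 * ((X₁ : ℝ) ^ 2 * (X₃ * X₄)) +
          576 * K * ((X₁ : ℝ) ^ 2 * (X₃ * X₄) * (X₂ / X₁))) := by ring
      _ ≤ E ^ 3 * (648 * Pi4 + 576 * Pi4 + 576 * K * Pi4) := by
          rw [hA3]
          gcongr
      _ ≤ 2000 * (1 + K) * (E ^ 3 * Pi4) := by
          have : 0 ≤ E ^ 3 * (Pi4 : ℝ) := by positivity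
          nlinarith [mul_nonneg hK.le this]
  refine hmain.trans (le_of_eq ?_)
  have hpow : ((Pi4 : ℝ) ^ (ε / 3)) ^ 3 * Pi4 = (Pi4 : ℝ) ^ (1 + ε) := by
    have h0 : (0 : ℝ) < Pi4 := by linarith
    rw [← Real.rpow_natCast ((Pi4 : ℝ) ^ (ε / 3)) 3, ← Real.rpow_mul h0.le, Real.rpow_add h0,
      Real.rpow_one]
    have : ε / 3 * ((3 : ℕ) : ℝ) = ε := by push_cast; ring
    rw [this]
    ring
  rw [hE, mul_pow]
  rw [← hpow]
  ring

end Pool.Agent.W978.QM
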