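import Mathlib
import Pool.Agent.W978.QM.Core

/-! Assembly: all orderings of the heights, all line bundles. -/

namespace Pool.Agent.W978.QM

open Finset

/-- The normalised primitive representative of a rational point of the projective line. -/
def Rep (v : Fin 2 → ℤ) : Prop := IsCoprime (v 0) (v 1) ∧ (0 < v 0 ∨ (v 0 = 0 ∧ v 1 = 1))

theorem cf_mm (b : Fin 2 → Fin 2 → Fin 2 → Fin 2 → ℤ) (p q r s : Fin 2 → ℤ) :
    cf b p q r s = ∑ k, ∑ l, mm b p q k l * r k * s l := by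
  unfold cf mm
  simp only [Fin.sum_univ_two]
  ring

theorem cf_bv (b : Fin 2 → Fin 2 → Fin 2 → Fin 2 → ℤ) (p q : Fin 2 → ℤ) (u v : Fin 2) :
    cf b p q (bv u) (bv v) = mm b p q u v := by
  rw [cf_mm]
  fin_cases u <;> fin_cases v <;> simp [bv, Pi.single_apply]

variable {a : (Fin 4 → Fin 2) → ℤ} {σ : Equiv.Perm (Fin 4)} {P : Fin 4 → Fin 2 → ℤ}

theorem qf_cf (hBR : S_BR) (a : (Fin 4 → Fin 2) → ℤ) (σ : Equiv.Perm (Fin 4))
    (P : Fin 4 → Fin 2 → ℤ) :
    qf a P = cf (cu a σ) (P (σ 0)) (P (σ 1)) (P (σ 2)) (P (σ 3)) := by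
  rw [hBR ℤ a σ P]
  simp only [Int.cast_id]

theorem ma_mm (hBR : S_BR) (a : (Fin 4 → Fin 2) → ℤ) (σ : Equiv.Perm (Fin 4))
    (P : Fin 4 → Fin 2 → ℤ) (u v : Fin 2) :
    ma a (σ 2) (σ 3) P u v = mm (cu a σ) (P (σ 0)) (P (σ 1)) u v := by
  unfold ma
  rw [qf_cf hBR a σ]
  have h20 : σ 0 ≠ σ 2 := fun h => by simpa using σ.injective h
  have h30 : σ 0 ≠ σ 3 := fun h => by simpa using σ.injective h
  have h21 : σ 1 ≠ σ 2 := fun h => by simpa using σ.injective h
  have h31 : σ 1 ≠ σ 3 := fun h => by simpa using σ.injective h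
  have h32 : σ 2 ≠ σ 3 := fun h => by simpa using σ.injective h
  rw [Function.update_of_ne h30, Function.update_of_ne h20, Function.update_of_ne h31,
    Function.update_of_ne h21, Function.update_of_ne h32, Function.update_self,
    Function.update_self, cf_bv]

theorem dt_dm (hBR : S_BR) (a : (Fin 4 → Fin 2) → ℤ) (σ : Equiv.Perm (Fin 4))
    (P : Fin 4 → Fin 2 → ℤ) :
    dt a (σ 2) (σ 3) P = dm (cu a σ) (P (σ 0)) (P (σ 1)) := by
  unfold dt dm
  simp only [ma_mm hBR]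

theorem disc_dm (hBR : S_BR) (a : (Fin 4 → Fin 2) → ℤ) (σ : Equiv.Perm (Fin 4))
    (P : Fin 4 → Fin 2 → ℤ) :
    disc a (σ 1) (σ 2) (σ 3) P =
      (dm (cu a σ) (P (σ 0)) (bv 0 + bv 1) - dm (cu a σ) (P (σ 0)) (bv 0) -
        dm (cu a σ) (P (σ 0)) (bv 1)) ^ 2 -
      4 * dm (cu a σ) (P (σ 0)) (bv 0) * dm (cu a σ) (P (σ 0)) (bv 1) := by
  unfold disc
  have h10 : σ 0 ≠ σ 1 := fun h => by simpa using σ.injective h
  simp only [dt_dm hBR, Function.update_self, Function.update_of_ne h10]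

theorem rk_of_disc (hBR : S_BR) (h : disc a (σ 1) (σ 2) (σ 3) P ≠ 0) :
    Rk (cu a σ) (P (σ 0)) := by
  by_contra hc
  apply h
  rw [disc_dm hBR]
  unfold Rk at hc
  push Not at hc
  set b := cu a σ
  set p := P (σ 0)
  have e1 := hc 1 1 0 1
  have e2 := hc 1 1 1 0
  have e3 := hc 1 0 1 1
  have e4 := hc 0 1 1 1
  have e5 := hc 0 0 1 1
  have e6 := hc 0 1 1 0
  unfold dm
  simp only [mm_eq, bv, Pi.add_apply, Pi.single_apply]
  simp only [Fin.isValue, ↓reduceIte, zero_ne_one, one_ne_zero, add_zero, zero_add, mul_one,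
    mul_zero]
  set x00 := wd b p 0 0 0
  set x01 := wd b p 0 0 1
  set x10 := wd b p 0 1 0
  set x11 := wd b p 0 1 1
  set y00 := wd b p 1 0 0
  set y01 := wd b p 1 0 1
  set y10 := wd b p 1 1 0
  set y11 := wd b p 1 1 1
  linear_combination (x00 * y11 - x11 * y00) * e5 + (x01 * y10 - x10 * y01) * e6 +
    2 * x00 * y10 * e1 + 2 * x00 * y01 * e2 + 2 * x01 * y00 * e3 + 2 * x10 * y00 * e4

/-- A primitive vector orthogonal to a nonzero vector is not larger than it. -/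
theorem nm_le_of_orth {s : Fin 2 → ℤ} (hs : Prim s) {t₀ t₁ : ℤ} (h : t₀ * s 0 + t₁ * s 1 = 0)
    (ht : t₀ ≠ 0 ∨ t₁ ≠ 0) : nm s ≤ max |t₀| |t₁| := by
  have h0 : s 0 ∣ t₁ := by
    have h1 : s 0 ∣ t₁ * s 1 := ⟨-t₀, by linear_combination h⟩
    exact IsCoprime.dvd_of_dvd_mul_right hs h1
  have h1 : s 1 ∣ t₀ := by
    have h1 : s 1 ∣ t₀ * s 0 := ⟨-t₁, by linear_combination h⟩
    exact IsCoprime.dvd_of_dvd_mul_right hs.symm h1
  unfold nm
  apply max_le
  · by_cases h2 : t₁ = 0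
    · have h3 : t₀ ≠ 0 := by
        rcases ht with h | h
        · exact h
        · exact absurd h2 h
      rw [h2, zero_mul, add_zero] at h
      have h4 : s 0 = 0 := by
        rcases mul_eq_zero.1 h with h | h
        · exact absurd h h3
        · exact h
      rw [h4, abs_zero]
      exact le_max_of_le_left (abs_nonneg _)
    · exact le_max_of_le_right
        (Int.le_of_dvd (abs_pos.2 h2) (by rwa [dvd_abs, abs_dvd]))
  · by_cases h2 : t₀ = 0
    · have h3 : t₁ ≠ 0 := by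
        rcases ht with h | h
        · exact absurd h2 h
        · exact h
      rw [h2, zero_mul, zero_add] at h
      have h4 : s 1 = 0 := by
        rcases mul_eq_zero.1 h with h | h
        · exact absurd h h3
        · exact h
      rw [h4, abs_zero]
      exact le_max_of_le_left (abs_nonneg _)
    · exact le_max_of_le_left
        (Int.le_of_dvd (abs_pos.2 h2) (by rwa [dvd_abs, abs_dvd]))

/-- On the open set each height is at most a constant times the product of the others. -/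
theorem nm_last (hBR : S_BR) (a : (Fin 4 → Fin 2) → ℤ) (σ : Equiv.Perm (Fin 4))
    (P : Fin 4 → Fin 2 → ℤ) (hP : ∀ i, Prim (P i)) (hq : qf a P = 0)
    (hd : dt a (σ 2) (σ 3) P ≠ 0) :
    nm (P (σ 3)) ≤ 8 * mxb (cu a σ) * (nm (P (σ 0)) * nm (P (σ 1)) * nm (P (σ 2))) := by
  rw [qf_cf hBR a σ, cf_mm] at hq
  rw [dt_dm hBR] at hd
  set b := cu a σ
  set p := P (σ 0)
  set q := P (σ 1)
  set r := P (σ 2)
  set s := P (σ 3)
  have hp1 : 1 ≤ nm p := nm_pos (hP _)
  have hq1 : 1 ≤ nm q := nm_pos (hP _)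
  have hr1 : 1 ≤ nm r := nm_pos (hP _)
  have hpb : p ∈ bx (nm p).toNat := mem_bx.2 (by omega)
  have hqb : q ∈ bx (nm q).toNat := mem_bx.2 (by omega)
  have hpn : (((nm p).toNat : ℕ) : ℤ) = nm p := by omega
  have hqn : (((nm q).toNat : ℕ) : ℤ) = nm q := by omega
  have hmm : ∀ k l, |mm b p q k l| ≤ 4 * mxb b * nm p * nm q := by
    intro k l
    have := mm_le b hpb hqb k l
    rwa [hpn, hqn] at this
  have hr0 : |r 0| ≤ nm r := le_max_left _ _
  have hr1' : |r 1| ≤ nm r := le_max_right _ _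
  have ht : ∀ l, |mm b p q 0 l * r 0 + mm b p q 1 l * r 1| ≤
      8 * mxb b * (nm p * nm q * nm r) := by
    intro l
    have h0 := hmm 0 l
    have h1 := hmm 1 l
    calc |mm b p q 0 l * r 0 + mm b p q 1 l * r 1|
        ≤ |mm b p q 0 l * r 0| + |mm b p q 1 l * r 1| := abs_add_le _ _
      _ = |mm b p q 0 l| * |r 0| + |mm b p q 1 l| * |r 1| := by rw [abs_mul, abs_mul]
      _ ≤ (4 * mxb b * nm p * nm q) * nm r + (4 * mxb b * nm p * nm q) * nm r := by gcongr
      _ = 8 * mxb b * (nm p * nm q * nm r) := by ring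
  refine le_trans (nm_le_of_orth (hP (σ 3)) (t₀ := mm b p q 0 0 * r 0 + mm b p q 1 0 * r 1)
    (t₁ := mm b p q 0 1 * r 0 + mm b p q 1 1 * r 1) ?_ ?_) (max_le (ht 0) (ht 1))
  · simp only [Fin.sum_univ_two] at hq
    linear_combination hq
  · by_contra hc
    push Not at hc
    obtain ⟨hc0, hc1⟩ := hc
    unfold dm at hd
    apply prim_ne_zero (hP (σ 2))
    have e0 : r 0 = 0 := by
      have : (mm b p q 0 0 * mm b p q 1 1 - mm b p q 0 1 * mm b p q 1 0) * r 0 = 0 := by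
        linear_combination mm b p q 1 1 * hc0 - mm b p q 1 0 * hc1
      rcases mul_eq_zero.1 this with h | h
      · exact absurd h hd
      · exact h
    have e1 : r 1 = 0 := by
      have : (mm b p q 0 0 * mm b p q 1 1 - mm b p q 0 1 * mm b p q 1 0) * r 1 = 0 := by
        linear_combination mm b p q 0 0 * hc1 - mm b p q 0 1 * hc0
      rcases mul_eq_zero.1 this with h | h
      · exact absurd h hd
      · exact h
    funext i
    fin_cases i
    · exact e0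
    · exact e1

/-- The dyadic exponent of a vector. -/
def dy (v : Fin 2 → ℤ) : ℕ := Nat.clog 2 (nm v).toNat

theorem dy_spec {v : Fin 2 → ℤ} (hv : Prim v) :
    nm v ≤ ((2 ^ dy v : ℕ) : ℤ) ∧ ((2 ^ dy v : ℕ) : ℤ) ≤ 2 * nm v := by
  have h1 := nm_pos hv
  unfold dy
  constructor
  · have := Nat.le_pow_clog (b := 2) (by norm_num) (nm v).toNat
    omega
  · by_cases h2 : (nm v).toNat = 1
    · rw [h2, Nat.clog_one_right]
      omega
    · have h3 : 1 < (nm v).toNat := by omega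
      have h4 := Nat.pow_pred_clog_lt_self (b := 2) (by norm_num) h3
      have h5 : 0 < Nat.clog 2 (nm v).toNat := Nat.clog_pos (by norm_num) h3
      have h6 : 2 ^ Nat.clog 2 (nm v).toNat = 2 * 2 ^ (Nat.clog 2 (nm v).toNat).pred := by
        rw [← pow_succ']
        exact congrArg (fun n => 2 ^ n) (Nat.succ_pred_eq_of_pos h5).symm
      omega

theorem dy_mono {v w : Fin 2 → ℤ} (h : nm v ≤ nm w) : dy v ≤ dy w := by
  unfold dy
  exact Nat.clog_mono_right 2 (by omega)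

open Classical in
/-- The anticanonical count. -/
theorem anti (hBR : S_BR) (hB : S_BIL) (hL : S_LAT) (hSM1 : S_SM1)
    (a : (Fin 4 → Fin 2) → ℤ) (ha : Smooth a) (ε : ℝ) (hε : 0 < ε) :
    ∃ C : ℝ, 0 < C ∧ ∀ B : ℕ, 1 ≤ B → ∃ S : Finset (Fin 4 → Fin 2 → ℤ),
      (∀ P : Fin 4 → Fin 2 → ℤ, (∀ i, Prim (P i)) → qf a P = 0 → InU a P →
        ∏ i, nm (P i) ≤ B → P ∈ S) ∧ (S.card : ℝ) ≤ C * (B : ℝ) ^ (1 + ε) := by
  have hcore := fun σ : Equiv.Perm (Fin 4) =>
    core hB hL (cu a σ) (hSM1 a ha σ) (ε / 2) (by positivity)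
  choose Cσ hCσ hcore using hcore
  obtain ⟨C₂, hC₂, hlog⟩ := log_bound (ε / 8) (by positivity)
  set C₁ := ∑ σ, Cσ σ with hC₁
  have hC₁0 : 0 ≤ C₁ := Finset.sum_nonneg fun σ _ => (hCσ σ).le
  refine ⟨(C₁ + 1) * C₂ ^ 4 * (16 : ℝ) ^ (1 + ε), by positivity, ?_⟩
  intro B hB1
  have hB1' : (1 : ℝ) ≤ B := by exact_mod_cast hB1
  set L := Nat.log 2 (16 * B) + 1 with hLdef
  -- the index set
  set I : Finset (Fin 4 → ℕ) := (Fintype.piFinset fun _ : Fin 4 => range L).filter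
    (fun k => k 0 ≤ k 1 ∧ k 1 ≤ k 2 ∧ k 2 ≤ k 3 ∧
      2 ^ k 0 * 2 ^ k 1 * 2 ^ k 2 * 2 ^ k 3 ≤ 16 * B) with hI
  set mk : Equiv.Perm (Fin 4) → (Fin 2 → ℤ) × (Fin 2 → ℤ) × ((Fin 2 → ℤ) × (Fin 2 → ℤ)) →
    (Fin 4 → Fin 2 → ℤ) := fun σ x i =>
      (![x.1, x.2.1, x.2.2.1, x.2.2.2] : Fin 4 → Fin 2 → ℤ) (σ.symm i) with hmk
  refine ⟨(univ : Finset (Equiv.Perm (Fin 4))).biUnion fun σ => I.biUnion fun k =>
    (cs (cu a σ) (2 ^ k 0) (2 ^ k 1) (2 ^ k 2) (2 ^ k 3)).image (mk σ), ?_, ?_⟩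
  · intro P hP hq hU hprod
    set σ := Tuple.sort (fun i => nm (P i)) with hσ
    have hmono : Monotone ((fun i => nm (P i)) ∘ σ) := Tuple.monotone_sort _
    rw [mem_biUnion]
    refine ⟨σ, mem_univ _, ?_⟩
    rw [mem_biUnion]
    refine ⟨fun m => dy (P (σ m)), ?_, ?_⟩
    · have hle : 2 ^ dy (P (σ 0)) * 2 ^ dy (P (σ 1)) * 2 ^ dy (P (σ 2)) * 2 ^ dy (P (σ 3)) ≤
          16 * B := by
        have h0 := (dy_spec (hP (σ 0))).2
        have h1 := (dy_spec (hP (σ 1))).2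
        have h2 := (dy_spec (hP (σ 2))).2
        have h3 := (dy_spec (hP (σ 3))).2
        have hpr : ∏ i, nm (P i) = nm (P (σ 0)) * nm (P (σ 1)) * nm (P (σ 2)) * nm (P (σ 3)) := by
          rw [← Equiv.prod_comp σ (fun i => nm (P i)), Fin.prod_univ_four]
        have n0 := nm_pos (hP (σ 0))
        have n1 := nm_pos (hP (σ 1))
        have n2 := nm_pos (hP (σ 2))
        have n3 := nm_pos (hP (σ 3))
        have : ((2 ^ dy (P (σ 0)) : ℕ) : ℤ) * ((2 ^ dy (P (σ 1)) : ℕ) : ℤ) *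
            ((2 ^ dy (P (σ 2)) : ℕ) : ℤ) * ((2 ^ dy (P (σ 3)) : ℕ) : ℤ) ≤ 16 * B := by
          calc ((2 ^ dy (P (σ 0)) : ℕ) : ℤ) * ((2 ^ dy (P (σ 1)) : ℕ) : ℤ) *
              ((2 ^ dy (P (σ 2)) : ℕ) : ℤ) * ((2 ^ dy (P (σ 3)) : ℕ) : ℤ)
              ≤ (2 * nm (P (σ 0))) * (2 * nm (P (σ 1))) * (2 * nm (P (σ 2))) *
                (2 * nm (P (σ 3))) := by gcongr
            _ = 16 * ∏ i, nm (P i) := by rw [hpr]; ring
            _ ≤ 16 * B := by gcongr
        exact_mod_cast this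
      rw [hI, mem_filter, Fintype.mem_piFinset]
      refine ⟨?_, dy_mono (hmono (by decide)), dy_mono (hmono (by decide)),
        dy_mono (hmono (by decide)), hle⟩
      have hone : ∀ m, 1 ≤ 2 ^ dy (P (σ m)) := fun m => Nat.one_le_two_pow
      have hlem : ∀ m : Fin 4, 2 ^ dy (P (σ m)) ≤ 16 * B := by
        intro m
        refine le_trans ?_ hle
        have a0 := hone 0
        have a1 := hone 1
        have a2 := hone 2
        have a3 := hone 3
        set y0 := 2 ^ dy (P (σ 0))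
        set y1 := 2 ^ dy (P (σ 1))
        set y2 := 2 ^ dy (P (σ 2))
        set y3 := 2 ^ dy (P (σ 3))
        have b01 : 1 ≤ y0 * y1 := Nat.mul_le_mul a0 a1
        have b012 : 1 ≤ y0 * y1 * y2 := Nat.mul_le_mul b01 a2
        fin_cases m
        · calc y0 = y0 * 1 * 1 * 1 := by ring
            _ ≤ y0 * y1 * y2 * y3 := by gcongr
        · calc y1 = 1 * y1 * 1 * 1 := by ring
            _ ≤ y0 * y1 * y2 * y3 := by gcongr
        · calc y2 = 1 * y2 * 1 := by ring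
            _ ≤ y0 * y1 * y2 * y3 := by gcongr
        · calc y3 = 1 * y3 := by ring
            _ ≤ y0 * y1 * y2 * y3 := by gcongr
      intro m
      rw [mem_range, hLdef]
      have := Nat.le_log_of_pow_le (b := 2) (by norm_num) (hlem m)
      omega
    · rw [mem_image]
      refine ⟨(P (σ 0), P (σ 1), (P (σ 2), P (σ 3))), ?_, ?_⟩
      · unfold cs
        rw [mem_filter, mem_product, mem_product, mem_product]
        refine ⟨⟨mem_bx.2 (dy_spec (hP _)).1, mem_bx.2 (dy_spec (hP _)).1,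
          mem_bx.2 (dy_spec (hP _)).1, mem_bx.2 (dy_spec (hP _)).1⟩,
          ⟨hP _, ?_, (dy_spec (hP _)).2⟩, ⟨hP _, ?_⟩, hP _, hP _, ?_⟩
        · apply rk_of_disc hBR
          apply hU.2
          · exact fun h => by simpa using σ.injective h
          · exact fun h => by simpa using σ.injective h
          · exact fun h => by simpa using σ.injective h
        · have := hU.1 (σ 2) (σ 3) (fun h => by simpa using σ.injective h)
          rwa [dt_dm hBR] at this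
        · rw [qf_cf hBR a σ, cf_mm] at hq
          exact hq
      · funext i
        obtain ⟨m, rfl⟩ := σ.surjective i
        simp only [hmk, Equiv.symm_apply_apply]
        fin_cases m <;> rfl
  · -- the cardinality
    have hL4 : ((L : ℕ) : ℝ) ≤ C₂ * ((16 * B : ℕ) : ℝ) ^ (ε / 8) := by
      have := hlog (16 * B) (by omega)
      rw [hLdef]
      push_cast at this ⊢
      exact this
    have hcardI : (I.card : ℝ) ≤ (C₂ * ((16 * B : ℕ) : ℝ) ^ (ε / 8)) ^ 4 := by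
      have h1 : I.card ≤ L ^ 4 := by
        refine (Finset.card_le_card (Finset.filter_subset _ _)).trans (le_of_eq ?_)
        rw [Fintype.card_piFinset]
        simp
      calc (I.card : ℝ) ≤ ((L ^ 4 : ℕ) : ℝ) := by exact_mod_cast h1
        _ = (L : ℝ) ^ 4 := by push_cast; ring
        _ ≤ _ := pow_le_pow_left₀ (by positivity) hL4 4
    have hterm : ∀ σ : Equiv.Perm (Fin 4), ∀ k ∈ I,
        (((cs (cu a σ) (2 ^ k 0) (2 ^ k 1) (2 ^ k 2) (2 ^ k 3)).image (mk σ)).card : ℝ) ≤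
        Cσ σ * ((16 * B : ℕ) : ℝ) ^ (1 + ε / 2) := by
      intro σ k hk
      rw [hI, mem_filter] at hk
      obtain ⟨-, k01, k12, k23, hk16⟩ := hk
      have h01 : 2 ^ k 0 ≤ 2 ^ k 1 := Nat.pow_le_pow_right (by norm_num) k01
      have h02 : 2 ^ k 0 ≤ 2 ^ k 2 := Nat.pow_le_pow_right (by norm_num) (k01.trans k12)
      have h13 : 2 ^ k 1 ≤ 2 ^ k 3 := Nat.pow_le_pow_right (by norm_num) (k12.trans k23)
      have h1 := hcore σ (2 ^ k 0) (2 ^ k 1) (2 ^ k 2) (2 ^ k 3) Nat.one_le_two_pow h01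
        Nat.one_le_two_pow Nat.one_le_two_pow (Nat.mul_le_mul h02 h13)
      calc (((cs (cu a σ) (2 ^ k 0) (2 ^ k 1) (2 ^ k 2) (2 ^ k 3)).image (mk σ)).card : ℝ)
          ≤ ((cs (cu a σ) (2 ^ k 0) (2 ^ k 1) (2 ^ k 2) (2 ^ k 3)).card : ℝ) := by
            exact_mod_cast Finset.card_image_le
        _ ≤ Cσ σ * ((2 ^ k 0 * 2 ^ k 1 * 2 ^ k 2 * 2 ^ k 3 : ℕ) : ℝ) ^ (1 + ε / 2) := h1
        _ ≤ Cσ σ * ((16 * B : ℕ) : ℝ) ^ (1 + ε / 2) := by
            apply mul_le_mul_of_nonneg_left _ (hCσ σ).le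
            exact Real.rpow_le_rpow (by positivity) (by exact_mod_cast hk16) (by positivity)
    have hX0 : (0 : ℝ) < ((16 * B : ℕ) : ℝ) := by
      push_cast; linarith
    calc (((univ : Finset (Equiv.Perm (Fin 4))).biUnion fun σ => I.biUnion fun k =>
          (cs (cu a σ) (2 ^ k 0) (2 ^ k 1) (2 ^ k 2) (2 ^ k 3)).image (mk σ)).card : ℝ)
        ≤ ∑ σ : Equiv.Perm (Fin 4), ∑ k ∈ I,
          (((cs (cu a σ) (2 ^ k 0) (2 ^ k 1) (2 ^ k 2) (2 ^ k 3)).image (mk σ)).card : ℝ) := by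
          have h1 := Finset.card_biUnion_le (s := (univ : Finset (Equiv.Perm (Fin 4))))
            (t := fun σ => I.biUnion fun k =>
              (cs (cu a σ) (2 ^ k 0) (2 ^ k 1) (2 ^ k 2) (2 ^ k 3)).image (mk σ))
          have h2 : ∑ σ : Equiv.Perm (Fin 4), (I.biUnion fun k =>
              (cs (cu a σ) (2 ^ k 0) (2 ^ k 1) (2 ^ k 2) (2 ^ k 3)).image (mk σ)).card ≤
            ∑ σ : Equiv.Perm (Fin 4), ∑ k ∈ I,
              ((cs (cu a σ) (2 ^ k 0) (2 ^ k 1) (2 ^ k 2) (2 ^ k 3)).image (mk σ)).card :=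
            Finset.sum_le_sum fun σ _ => Finset.card_biUnion_le
          exact_mod_cast h1.trans h2
      _ ≤ ∑ σ : Equiv.Perm (Fin 4), ∑ k ∈ I, Cσ σ * ((16 * B : ℕ) : ℝ) ^ (1 + ε / 2) :=
          Finset.sum_le_sum fun σ _ => Finset.sum_le_sum fun k hk => hterm σ k hk
      _ = (I.card : ℝ) * (C₁ * ((16 * B : ℕ) : ℝ) ^ (1 + ε / 2)) := by
          simp only [Finset.sum_const, nsmul_eq_mul]
          rw [← Finset.mul_sum, ← Finset.sum_mul, hC₁]
      _ ≤ (C₂ * ((16 * B : ℕ) : ℝ) ^ (ε / 8)) ^ 4 *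
          ((C₁ + 1) * ((16 * B : ℕ) : ℝ) ^ (1 + ε / 2)) := by
          gcongr
          linarith
      _ = (C₁ + 1) * C₂ ^ 4 * (((16 * B : ℕ) : ℝ) ^ (ε / 8 * 4) *
          ((16 * B : ℕ) : ℝ) ^ (1 + ε / 2)) := by
          rw [mul_pow, ← Real.rpow_natCast (((16 * B : ℕ) : ℝ) ^ (ε / 8)) 4,
            ← Real.rpow_mul hX0.le]
          push_cast
          ring
      _ = (C₁ + 1) * C₂ ^ 4 * ((16 * B : ℕ) : ℝ) ^ (1 + ε) := by
          rw [← Real.rpow_add hX0]
          congr 2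
          ring
      _ = (C₁ + 1) * C₂ ^ 4 * (16 : ℝ) ^ (1 + ε) * (B : ℝ) ^ (1 + ε) := by
          push_cast
          rw [Real.mul_rpow (by norm_num) (by linarith)]
          ring

end Pool.Agent.W978.QM
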