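import Mathlib
import Pool.Agent.W978.QM.Asm

/-! The general line bundle. -/

namespace Pool.Agent.W978.QM

open Finset

/-- The exponent: the least `t` such that `t L + K` lies in the cone given by
`x i + x j ≥ 0` for all `i ≠ j`, where `L = (l 0, l 1, l 2, l 3)` and `K = (-1,-1,-1,-1)`. -/
noncomputable def fuj (l : Fin 4 → ℝ) : ℝ :=
  sInf {t : ℝ | ∀ i j, i ≠ j → 0 ≤ (t * l i - 1) + (t * l j - 1)}

/-- The product of all heights in terms of the height of the line bundle. -/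
theorem prod_le (l : Fin 4 → ℝ) (hl : ∀ i, 0 ≤ l i) (t : ℝ) (ht : 0 ≤ t)
    (htl : ∀ i j, i ≠ j → 0 ≤ (t * l i - 1) + (t * l j - 1))
    (C₀ : ℝ) (hC₀ : 1 ≤ C₀) (h : Fin 4 → ℝ) (h1 : ∀ i, 1 ≤ h i)
    (hlast : ∀ i, h i * h i ≤ C₀ * ∏ j, h j) (T : ℝ) (hT : 1 ≤ T)
    (hH : ∏ i, h i ^ l i ≤ T) : ∏ i, h i ≤ C₀ * T ^ t := by
  have hpos : ∀ i, 0 < h i := fun i => by linarith [h1 i]
  set k : Fin 4 → ℝ := fun i => Real.log (h i) with hk
  set c := Real.log C₀ with hc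
  have hc0 : 0 ≤ c := Real.log_nonneg hC₀
  have hk0 : ∀ i, 0 ≤ k i := fun i => Real.log_nonneg (h1 i)
  have hprodpos : 0 < ∏ i, h i := Finset.prod_pos fun i _ => hpos i
  have hsum : Real.log (∏ i, h i) = ∑ i, k i := by
    rw [Real.log_prod (fun i _ => (hpos i).ne')]
  have hk2 : ∀ i, 2 * k i ≤ c + ∑ j, k j := by
    intro i
    have h2 := Real.log_le_log (mul_pos (hpos i) (hpos i)) (hlast i)
    rw [Real.log_mul (hpos i).ne' (hpos i).ne', Real.log_mul (by linarith) hprodpos.ne',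
      hsum] at h2
    have : k i = Real.log (h i) := rfl
    linarith
  have hlogT : ∑ i, l i * k i ≤ Real.log T := by
    have h3 : Real.log (∏ i, h i ^ l i) = ∑ i, l i * k i := by
      rw [Real.log_prod (fun i _ => (Real.rpow_pos_of_pos (hpos i) _).ne')]
      refine Finset.sum_congr rfl fun i _ => ?_
      rw [Real.log_rpow (hpos i)]
    rw [← h3]
    exact Real.log_le_log (Finset.prod_pos fun i _ => Real.rpow_pos_of_pos (hpos i) _) hH
  -- main inequality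
  have hmain : -c ≤ ∑ i, (t * l i - 1) * k i := by
    by_cases hneg : ∃ i, t * l i - 1 < 0
    · obtain ⟨i, hi⟩ := hneg
      have h4 : ∀ j ∈ univ.erase i, -(t * l i - 1) * k j ≤ (t * l j - 1) * k j := by
        intro j hj
        have hji : i ≠ j := (Finset.ne_of_mem_erase hj).symm
        have := htl i j hji
        exact mul_le_mul_of_nonneg_right (by linarith) (hk0 j)
      have h5 := Finset.sum_le_sum h4
      have h6 : ∑ j, (t * l j - 1) * k j = (t * l i - 1) * k i +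
          ∑ j ∈ univ.erase i, (t * l j - 1) * k j :=
        (Finset.add_sum_erase _ _ (mem_univ i)).symm
      have h7 : ∑ j, k j = k i + ∑ j ∈ univ.erase i, k j :=
        (Finset.add_sum_erase _ _ (mem_univ i)).symm
      rw [← Finset.mul_sum] at h5
      rw [h6]
      have h8 := hk2 i
      rw [h7] at h8
      have h9 : -1 ≤ t * l i - 1 := by
        have := mul_nonneg ht (hl i)
        linarith
      set S := ∑ j ∈ univ.erase i, k j
      have h10 : -(t * l i - 1) * (S - k i) ≥ -(t * l i - 1) * (-c) :=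
        mul_le_mul_of_nonneg_left (by linarith) (by linarith)
      nlinarith
    · push Not at hneg
      have : 0 ≤ ∑ i, (t * l i - 1) * k i :=
        Finset.sum_nonneg fun i _ => mul_nonneg (hneg i) (hk0 i)
      linarith
  have hK : ∑ i, k i ≤ c + t * Real.log T := by
    have h11 : ∑ i, (t * l i - 1) * k i = t * ∑ i, l i * k i - ∑ i, k i := by
      rw [Finset.mul_sum, ← Finset.sum_sub_distrib]
      refine Finset.sum_congr rfl fun i _ => ?_
      ring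
    rw [h11] at hmain
    have := mul_le_mul_of_nonneg_left hlogT ht
    linarith
  have hTt : 0 < T ^ t := Real.rpow_pos_of_pos (by linarith) _
  rw [← Real.log_le_log_iff hprodpos (by positivity), hsum,
    Real.log_mul (by linarith) hTt.ne', Real.log_rpow (by linarith)]
  exact hK

theorem rep_prim {v : Fin 2 → ℤ} (h : Rep v) : Prim v := h.1

open Classical in
/-- The weak form of the conjecture for all smooth divisors of type `(1,1,1,1)`. -/
theorem main (hBR : S_BR) (hB : S_BIL) (hL : S_LAT) (hSM1 : S_SM1) (hSM2 : S_SM2)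
    (hSM3 : S_SM3) (a : (Fin 4 → Fin 2) → ℤ) (ha : Smooth a) :
    (∃ P : Fin 4 → Fin 2 → ℂ, (∀ i, P i ≠ 0) ∧ qf a P = 0 ∧ InU a P) ∧
    ∀ l : Fin 4 → ℝ, (∀ i, 0 ≤ l i) → (∀ i j, i ≠ j → 0 < l i + l j) →
      ∀ ε : ℝ, 0 < ε → ∃ C : ℝ, ∀ T : ℝ, 1 ≤ T →
        {P : Fin 4 → Fin 2 → ℤ | (∀ i, Rep (P i)) ∧ qf a P = 0 ∧ InU a P ∧
          ∏ i, (nm (P i) : ℝ) ^ l i ≤ T}.Finite ∧
        ({P : Fin 4 → Fin 2 → ℤ | (∀ i, Rep (P i)) ∧ qf a P = 0 ∧ InU a P ∧
          ∏ i, (nm (P i) : ℝ) ^ l i ≤ T}.ncard : ℝ) ≤ C * T ^ (fuj l + ε) := by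
  refine ⟨hSM3 a (hSM2 a ha), ?_⟩
  intro l hl hll ε hε
  -- an admissible t close to the infimum
  set F : Set ℝ := {t : ℝ | ∀ i j, i ≠ j → 0 ≤ (t * l i - 1) + (t * l j - 1)} with hF
  have hne : F.Nonempty := by
    have hfin : ∃ t : ℝ, ∀ p : Fin 4 × Fin 4, 2 / (l p.1 + l p.2) ≤ t := by
      obtain ⟨t, ht⟩ := (Set.finite_range fun p : Fin 4 × Fin 4 => 2 / (l p.1 + l p.2)).bddAbove
      exact ⟨t, fun p => ht ⟨p, rfl⟩⟩
    obtain ⟨t, ht⟩ := hfin
    refine ⟨t, fun i j hij => ?_⟩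
    have h1 := ht (i, j)
    have h2 := hll i j hij
    rw [div_le_iff₀ h2] at h1
    linarith
  have hpos : ∀ t ∈ F, 0 ≤ t := by
    intro t ht
    by_contra hc
    push Not at hc
    have h1 := ht 0 1 (by decide)
    have h2 := hll 0 1 (by decide)
    nlinarith
  obtain ⟨t, htF, htlt⟩ := exists_lt_of_csInf_lt hne (show sInf F < sInf F + ε / 2 by linarith)
  have ht0 := hpos t htF
  have hfuj : fuj l = sInf F := rfl
  -- the constant for the last coordinate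
  set C₀ : ℝ := 1 + ∑ σ : Equiv.Perm (Fin 4), 8 * (mxb (cu a σ) : ℝ) with hC₀
  have hC₀1 : 1 ≤ C₀ := by
    rw [hC₀]
    have : 0 ≤ ∑ σ : Equiv.Perm (Fin 4), 8 * (mxb (cu a σ) : ℝ) :=
      Finset.sum_nonneg fun σ _ => by positivity
    linarith
  have hlastP : ∀ P : Fin 4 → Fin 2 → ℤ, (∀ i, Prim (P i)) → qf a P = 0 → InU a P →
      ∀ i, (nm (P i) : ℝ) * (nm (P i) : ℝ) ≤ C₀ * ∏ j, (nm (P j) : ℝ) := by
    intro P hP hq hU i
    set σ : Equiv.Perm (Fin 4) := Equiv.swap i 3 with hσ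
    have hσ3 : σ 3 = i := Equiv.swap_apply_right i 3
    have h1 := nm_last hBR a σ P hP hq (hU.1 _ _ (fun h => by simpa using σ.injective h))
    have h2 : (nm (P (σ 3)) : ℝ) ≤ 8 * mxb (cu a σ) *
        (nm (P (σ 0)) * nm (P (σ 1)) * nm (P (σ 2))) := by exact_mod_cast h1
    have hpr : ∏ j, (nm (P j) : ℝ) = (nm (P (σ 0)) : ℝ) * nm (P (σ 1)) * nm (P (σ 2)) *
        nm (P (σ 3)) := by
      rw [← Equiv.prod_comp σ (fun i => (nm (P i) : ℝ)), Fin.prod_univ_four]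
    have hn : ∀ m, (1 : ℝ) ≤ (nm (P m) : ℝ) := fun m => by exact_mod_cast nm_pos (hP m)
    have hC : 8 * (mxb (cu a σ) : ℝ) ≤ C₀ := by
      have := Finset.single_le_sum (f := fun σ : Equiv.Perm (Fin 4) => 8 * (mxb (cu a σ) : ℝ))
        (fun σ _ => by positivity) (mem_univ σ)
      rw [hC₀]
      linarith
    rw [hpr, ← hσ3]
    have n0 := hn (σ 0)
    have n1 := hn (σ 1)
    have n2 := hn (σ 2)
    have n3 := hn (σ 3)
    calc (nm (P (σ 3)) : ℝ) * nm (P (σ 3))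
        ≤ (8 * mxb (cu a σ) * (nm (P (σ 0)) * nm (P (σ 1)) * nm (P (σ 2)))) * nm (P (σ 3)) := by
          gcongr
      _ ≤ (C₀ * (nm (P (σ 0)) * nm (P (σ 1)) * nm (P (σ 2)))) * nm (P (σ 3)) := by
          gcongr
      _ = C₀ * ((nm (P (σ 0)) : ℝ) * nm (P (σ 1)) * nm (P (σ 2)) * nm (P (σ 3))) := by ring
  set ε' := ε / (2 * (t + 1)) with hε'
  have hε'0 : 0 < ε' := by positivity
  obtain ⟨C, hC, hanti⟩ := anti hBR hB hL hSM1 a ha ε' hε'0
  refine ⟨C * C₀ ^ (1 + ε'), ?_⟩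
  intro T hT
  have hTt1 : (1 : ℝ) ≤ T ^ t := Real.one_le_rpow hT ht0
  have hB1 : 1 ≤ ⌊C₀ * T ^ t⌋₊ := by
    rw [Nat.one_le_floor_iff]
    nlinarith
  obtain ⟨S, hS, hcard⟩ := hanti ⌊C₀ * T ^ t⌋₊ hB1
  have hsub : {P : Fin 4 → Fin 2 → ℤ | (∀ i, Rep (P i)) ∧ qf a P = 0 ∧ InU a P ∧
      ∏ i, (nm (P i) : ℝ) ^ l i ≤ T} ⊆ ↑S := by
    rintro P ⟨hR, hq, hU, hH⟩
    have hP : ∀ i, Prim (P i) := fun i => rep_prim (hR i)
    apply hS P hP hq hU
    have h1 := prod_le l hl t ht0 htF C₀ hC₀1 (fun i => (nm (P i) : ℝ))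
      (fun i => by exact_mod_cast nm_pos (hP i)) (hlastP P hP hq hU) T hT hH
    have h2 : ((∏ i, nm (P i) : ℤ) : ℝ) ≤ C₀ * T ^ t := by
      push_cast
      exact h1
    have h3 : 0 ≤ ∏ i, nm (P i) := Finset.prod_nonneg fun i _ => by
      have := nm_pos (hP i)
      omega
    obtain ⟨n, hn⟩ := Int.eq_ofNat_of_zero_le h3
    rw [hn] at h2 ⊢
    have h4 : (n : ℝ) ≤ C₀ * T ^ t := by exact_mod_cast h2
    exact_mod_cast Nat.le_floor h4
  have hfinS : (↑S : Set (Fin 4 → Fin 2 → ℤ)).Finite := S.finite_toSet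
  refine ⟨hfinS.subset hsub, ?_⟩
  have h5 : {P : Fin 4 → Fin 2 → ℤ | (∀ i, Rep (P i)) ∧ qf a P = 0 ∧ InU a P ∧
      ∏ i, (nm (P i) : ℝ) ^ l i ≤ T}.ncard ≤ S.card := by
    have := Set.ncard_le_ncard hsub hfinS
    rwa [Set.ncard_coe_finset] at this
  have h6 : ((⌊C₀ * T ^ t⌋₊ : ℕ) : ℝ) ≤ C₀ * T ^ t := Nat.floor_le (by positivity)
  calc ({P : Fin 4 → Fin 2 → ℤ | (∀ i, Rep (P i)) ∧ qf a P = 0 ∧ InU a P ∧
      ∏ i, (nm (P i) : ℝ) ^ l i ≤ T}.ncard : ℝ) ≤ (S.card : ℝ) := by exact_mod_cast h5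
    _ ≤ C * ((⌊C₀ * T ^ t⌋₊ : ℕ) : ℝ) ^ (1 + ε') := hcard
    _ ≤ C * (C₀ * T ^ t) ^ (1 + ε') := by
        apply mul_le_mul_of_nonneg_left _ hC.le
        exact Real.rpow_le_rpow (by positivity) h6 (by positivity)
    _ = C * C₀ ^ (1 + ε') * T ^ (t * (1 + ε')) := by
        rw [Real.mul_rpow (by linarith) (by positivity), ← Real.rpow_mul (by linarith)]
        ring
    _ ≤ C * C₀ ^ (1 + ε') * T ^ (fuj l + ε) := by
        apply mul_le_mul_of_nonneg_left _ (by positivity)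
        apply Real.rpow_le_rpow_of_exponent_le hT
        rw [hfuj]
        have h7 : t * ε' ≤ ε / 2 := by
          rw [hε', mul_div_assoc', div_le_div_iff₀ (by positivity) (by norm_num)]
          nlinarith
        nlinarith

end Pool.Agent.W978.QM
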